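import Mathlib

set_option autoImplicit false

open MeasureTheory ProbabilityTheory

namespace Pool.Agent.Results.MP_64b22f_nt.PersistentAsymmetry

/-! ## Definitions used in the statement -/

/-- Finite rooted planar binary trees: `leaf` is the one-vertex tree, `node T₋ T₊` is the tree
whose root has left subtree `T₋` and right subtree `T₊`. -/
inductive BTree : Type
  | leaf : BTree
  | node : BTree → BTree → BTree

/-- The two letters `L` and `R`. -/
inductive Letter : Type
  | L : Letter
  | R : Letter
  deriving DecidableEq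

/-- The time `τ_T` at which a walk with steps `x 0, x 1, …` that descends the tree `T`
(left on a step `-1`, right otherwise, that is on a step `+1`) stops at a leaf. -/
def stopTime : BTree → (ℕ → ℤ) → ℕ
  | .leaf, _ => 0
  | .node l r, x =>
      1 + if x 0 = -1 then stopTime l (fun n => x (n + 1)) else stopTime r (fun n => x (n + 1))

/-- The position `x 0 + … + x (n - 1)` of the walk after `n` steps. -/
def walk (x : ℕ → ℤ) (n : ℕ) : ℤ := ∑ i ∈ Finset.range n, x i

/-- The law `E(T)` on `ℤ` of the walk with steps `ξ 0, ξ 1, …` stopped at the time `τ_T`. -/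
noncomputable def law {Ω : Type*} [MeasurableSpace Ω] (P : Measure Ω) (ξ : ℕ → Ω → ℤ)
    (T : BTree) : Measure ℤ :=
  P.map (fun ω => walk (fun n => ξ n ω) (stopTime T (fun n => ξ n ω)))

/-- The pair `(T_v⁻, T_v⁺)` of subtrees at the root of the tree `T_v = [T_v⁻, T_v⁺]`: for the
empty word it is the pair of two leaves; reading a letter `L` replaces the first component by
the tree `[T_v⁻, T_v⁺]`, reading a letter `R` replaces the second one by it. -/
def rootPair (v : List Letter) : BTree × BTree :=
  v.foldl (fun p c => match c with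
    | .L => (.node p.1 p.2, p.2)
    | .R => (p.1, .node p.1 p.2)) (.leaf, .leaf)

/-- The tree `T_v`. -/
def tree (v : List Letter) : BTree := .node (rootPair v).1 (rootPair v).2

/-! ## Combinatorics of subsequences -/

/-- `#R - #L`. -/
def val (u : List Letter) : ℤ := (u.count Letter.R : ℤ) - (u.count Letter.L : ℤ)

lemma val_nil : val [] = 0 := by simp [val]

lemma val_consL (u : List Letter) : val (Letter.L :: u) = val u - 1 := by
  simp [val]; ring

lemma val_consR (u : List Letter) : val (Letter.R :: u) = val u + 1 := by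
  simp [val]; ring

lemma length_eq_count (u : List Letter) :
    u.length = u.count Letter.L + u.count Letter.R := by
  induction u with
  | nil => simp
  | cons c u ih => cases c <;> simp [ih] <;> ring

/-- internal nodes of a tree, as words (addresses) -/
def nodes : BTree → Finset (List Letter)
  | .leaf => ∅
  | .node l r =>
      insert [] ((nodes l).image (List.cons Letter.L) ∪ (nodes r).image (List.cons Letter.R))

/-- expectation of `f (s + S_τ)` -/
noncomputable def gen (f : ℤ → ℝ) : BTree → ℤ → ℝ
  | .leaf, s => f s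
  | .node l r, s => (gen f l (s - 1) + gen f r (s + 1)) / 2

/-- half of the discrete Laplacian -/
noncomputable def lap (f : ℤ → ℝ) (s : ℤ) : ℝ := (f (s - 1) + f (s + 1)) / 2 - f s

lemma gen_eq (f : ℤ → ℝ) (T : BTree) (s : ℤ) :
    gen f T s = f s + ∑ u ∈ nodes T, (1 / 2 : ℝ) ^ u.length * lap f (s + val u) := by
  induction T generalizing s with
  | leaf => simp [gen, nodes]
  | node l r ihl ihr =>
    have hdisj : Disjoint ((nodes l).image (List.cons Letter.L))
        ((nodes r).image (List.cons Letter.R)) := by
      rw [Finset.disjoint_left]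
      intro u hu hu'
      simp only [Finset.mem_image] at hu hu'
      obtain ⟨a, _, rfl⟩ := hu
      obtain ⟨b, _, hb⟩ := hu'
      simp at hb
    have hnot : ([] : List Letter) ∉ ((nodes l).image (List.cons Letter.L) ∪
        (nodes r).image (List.cons Letter.R)) := by
      simp
    rw [gen, ihl, ihr, nodes, Finset.sum_insert hnot, Finset.sum_union hdisj,
      Finset.sum_image (by intro a _ b _ h; simpa using h),
      Finset.sum_image (by intro a _ b _ h; simpa using h)]
    have h1 : ∑ u ∈ nodes l, (1 / 2 : ℝ) ^ (Letter.L :: u).length *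
        lap f (s + val (Letter.L :: u)) =
        (∑ u ∈ nodes l, (1 / 2 : ℝ) ^ u.length * lap f (s - 1 + val u)) / 2 := by
      rw [Finset.sum_div]
      refine Finset.sum_congr rfl fun u _ => ?_
      rw [val_consL, List.length_cons, pow_succ]
      have : s + (val u - 1) = s - 1 + val u := by ring
      rw [this]; ring
    have h2 : ∑ u ∈ nodes r, (1 / 2 : ℝ) ^ (Letter.R :: u).length *
        lap f (s + val (Letter.R :: u)) =
        (∑ u ∈ nodes r, (1 / 2 : ℝ) ^ u.length * lap f (s + 1 + val u)) / 2 := by
      rw [Finset.sum_div]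
      refine Finset.sum_congr rfl fun u _ => ?_
      rw [val_consR, List.length_cons, pow_succ]
      have : s + (val u + 1) = s + 1 + val u := by ring
      rw [this]; ring
    rw [h1, h2, val_nil]
    simp only [List.length_nil, pow_zero, add_zero, lap]
    ring

lemma rootPair_snoc (v : List Letter) (c : Letter) :
    rootPair (v ++ [c]) = (match c with
      | .L => (.node (rootPair v).1 (rootPair v).2, (rootPair v).2)
      | .R => ((rootPair v).1, .node (rootPair v).1 (rootPair v).2)) := by
  unfold rootPair
  rw [List.foldl_append]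
  rfl

lemma mem_nodes_node (l r : BTree) (u : List Letter) :
    u ∈ nodes (.node l r) ↔ u = [] ∨ (∃ a ∈ nodes l, Letter.L :: a = u) ∨
      (∃ a ∈ nodes r, Letter.R :: a = u) := by
  simp [nodes]

lemma mem_rootPair (v : List Letter) :
    (∀ u, u ∈ nodes (rootPair v).1 ↔ (Letter.L :: u).Sublist v.reverse) ∧
    (∀ u, u ∈ nodes (rootPair v).2 ↔ (Letter.R :: u).Sublist v.reverse) := by
  induction v using List.reverseRecOn with
  | nil => simp [rootPair, nodes]
  | append_singleton v c ih =>
    obtain ⟨ih1, ih2⟩ := ih
    have key : ∀ u, u ∈ nodes (.node (rootPair v).1 (rootPair v).2) ↔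
        u.Sublist v.reverse := by
      intro u
      rw [mem_nodes_node]
      cases u with
      | nil => simp
      | cons c u =>
        cases c with
        | L =>
          rw [← ih1 u]
          simp
        | R =>
          rw [← ih2 u]
          simp
    rw [rootPair_snoc, List.reverse_append]
    cases c with
    | L =>
      refine ⟨fun u => ?_, fun u => ?_⟩
      · simp only [List.reverse_cons, List.reverse_nil, List.nil_append, List.singleton_append]
        rw [List.cons_sublist_cons]
        exact key u
      · simp only [List.reverse_cons, List.reverse_nil, List.nil_append, List.singleton_append]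
        rw [ih2 u]
        constructor
        · intro h
          exact h.cons _
        · intro h
          cases h with
          | cons _ h => exact h
    | R =>
      refine ⟨fun u => ?_, fun u => ?_⟩
      · simp only [List.reverse_cons, List.reverse_nil, List.nil_append, List.singleton_append]
        rw [ih1 u]
        constructor
        · intro h
          exact h.cons _
        · intro h
          cases h with
          | cons _ h => exact h
      · simp only [List.reverse_cons, List.reverse_nil, List.nil_append, List.singleton_append]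
        rw [List.cons_sublist_cons]
        exact key u

lemma mem_nodes_tree (v u : List Letter) : u ∈ nodes (tree v) ↔ u.Sublist v.reverse := by
  obtain ⟨ih1, ih2⟩ := mem_rootPair v
  unfold tree
  rw [mem_nodes_node]
  cases u with
  | nil => simp
  | cons c u =>
    cases c with
    | L =>
      rw [← ih1 u]
      simp
    | R =>
      rw [← ih2 u]
      simp

/-- number of positions of the letter `R` -/
lemma card_positions (u : List Letter) :
    ((Finset.range u.length).filter (fun i => u[i]? = some Letter.R)).card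
      = u.count Letter.R := by
  induction u with
  | nil => simp
  | cons c u ih =>
    rw [List.length_cons, Finset.range_eq_Ico, ← Finset.insert_Ico_add_one_left_eq_Ico (by omega),
      Finset.filter_insert]
    have himg : (Finset.Ico (0 + 1) (u.length + 1)).filter
        (fun i => (c :: u)[i]? = some Letter.R) =
        ((Finset.range u.length).filter (fun i => u[i]? = some Letter.R)).image (· + 1) := by
      ext i
      simp only [Finset.mem_filter, Finset.mem_Ico, Finset.mem_image, Finset.mem_range]
      constructor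
      · rintro ⟨⟨h1, h2⟩, h3⟩
        obtain ⟨j, rfl⟩ : ∃ j, i = j + 1 := ⟨i - 1, by omega⟩
        refine ⟨j, ⟨by omega, ?_⟩, rfl⟩
        simpa using h3
      · rintro ⟨j, ⟨h1, h2⟩, rfl⟩
        refine ⟨⟨by omega, by omega⟩, ?_⟩
        simpa using h2
    rw [himg]
    have hc : (((Finset.range u.length).filter (fun i => u[i]? = some Letter.R)).image
        (· + 1)).card = u.count Letter.R := by
      rw [Finset.card_image_of_injective _ (add_left_injective 1), ih]
    cases c with
    | L => simp [hc]
    | R =>
      simp only [List.getElem?_cons_zero, if_true, List.count_cons_self]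
      rw [Finset.card_insert_of_notMem (by simp), hc]

/-- pairs (word, position of an `R` in it) -/
def markedPairs (B : Finset (List Letter)) : Finset (List Letter × ℕ) :=
  B.biUnion fun u => ((Finset.range u.length).filter (fun i => u[i]? = some Letter.R)).image
    (fun i => (u, i))

lemma mem_markedPairs (B : Finset (List Letter)) (p : List Letter × ℕ) :
    p ∈ markedPairs B ↔ p.1 ∈ B ∧ p.2 < p.1.length ∧ p.1[p.2]? = some Letter.R := by
  obtain ⟨u, i⟩ := p
  simp only [markedPairs, Finset.mem_biUnion, Finset.mem_image, Finset.mem_filter,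
    Finset.mem_range, Prod.mk.injEq]
  constructor
  · rintro ⟨a, ha, j, ⟨h1, h2⟩, rfl, rfl⟩
    exact ⟨ha, h1, h2⟩
  · rintro ⟨h1, h2, h3⟩
    exact ⟨u, h1, i, ⟨h2, h3⟩, rfl, rfl⟩

lemma sum_markedPairs (B : Finset (List Letter)) (f : List Letter → ℝ) :
    ∑ p ∈ markedPairs B, f p.1 = ∑ u ∈ B, (u.count Letter.R : ℝ) * f u := by
  unfold markedPairs
  rw [Finset.sum_biUnion]
  · refine Finset.sum_congr rfl fun u _ => ?_
    rw [Finset.sum_image (by intro a _ b _ h; simpa using h)]
    simp only [Finset.sum_const, card_positions, nsmul_eq_mul]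
  · intro a _ b _ hab
    simp only [Function.onFun]
    rw [Finset.disjoint_left]
    intro p hp hp'
    simp only [Finset.mem_image] at hp hp'
    obtain ⟨i, _, rfl⟩ := hp
    obtain ⟨j, _, hj⟩ := hp'
    simp only [Prod.mk.injEq] at hj
    exact hab hj.1.symm

/-- pairs (word, gap in it) -/
def gapPairs (A : Finset (List Letter)) : Finset (List Letter × ℕ) :=
  A.biUnion fun u => (Finset.range (u.length + 1)).image (fun i => (u, i))

lemma mem_gapPairs (A : Finset (List Letter)) (p : List Letter × ℕ) :
    p ∈ gapPairs A ↔ p.1 ∈ A ∧ p.2 < p.1.length + 1 := by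
  obtain ⟨u, i⟩ := p
  simp only [gapPairs, Finset.mem_biUnion, Finset.mem_image, Finset.mem_range, Prod.mk.injEq]
  constructor
  · rintro ⟨a, ha, j, h1, rfl, rfl⟩
    exact ⟨ha, h1⟩
  · rintro ⟨h1, h2⟩
    exact ⟨u, h1, i, h2, rfl, rfl⟩

lemma sum_gapPairs (A : Finset (List Letter)) (f : List Letter → ℝ) :
    ∑ p ∈ gapPairs A, f p.1 = ∑ u ∈ A, ((u.length : ℝ) + 1) * f u := by
  unfold gapPairs
  rw [Finset.sum_biUnion]
  · refine Finset.sum_congr rfl fun u _ => ?_
    rw [Finset.sum_image (by intro a _ b _ h; simpa using h)]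
    simp only [Finset.sum_const, Finset.card_range, nsmul_eq_mul]
    push_cast
    ring
  · intro a _ b _ hab
    simp only [Function.onFun]
    rw [Finset.disjoint_left]
    intro p hp hp'
    simp only [Finset.mem_image] at hp hp'
    obtain ⟨i, _, rfl⟩ := hp
    obtain ⟨j, _, hj⟩ := hp'
    simp only [Prod.mk.injEq] at hj
    exact hab hj.1.symm

/-- The deletion map. -/
def del (p : List Letter × ℕ) : List Letter × ℕ := (p.1.eraseIdx p.2, p.2)

lemma getElem?_insert_erase (u : List Letter) (i : ℕ) (hi : i < u.length)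
    (h : u[i]? = some Letter.R) : (u.eraseIdx i).insertIdx i Letter.R = u := by
  induction u generalizing i with
  | nil => simp at hi
  | cons c u ih =>
    cases i with
    | zero =>
      simp only [List.getElem?_cons_zero, Option.some.injEq] at h
      simp [h]
    | succ i =>
      simp only [List.eraseIdx_cons_succ, List.insertIdx_succ_cons]
      rw [ih i (by simpa using hi) (by simpa using h)]

lemma count_insert (u : List Letter) (i : ℕ) (hi : i ≤ u.length) (c : Letter) :
    (u.insertIdx i Letter.R).count c = u.count c + if Letter.R = c then 1 else 0 := by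
  have h := List.perm_insertIdx (α := Letter) Letter.R u hi
  rw [h.count_eq, List.count_cons]
  simp [beq_iff_eq]

lemma count_erase (u : List Letter) (i : ℕ) (hi : i < u.length)
    (h : u[i]? = some Letter.R) (c : Letter) :
    u.count c = (u.eraseIdx i).count c + if Letter.R = c then 1 else 0 := by
  have hlen : (u.eraseIdx i).length = u.length - 1 := List.length_eraseIdx_of_lt hi
  have h1 := count_insert (u.eraseIdx i) i (by omega) c
  rw [getElem?_insert_erase u i hi h] at h1
  exact h1

lemma val_erase (u : List Letter) (i : ℕ) (hi : i < u.length)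
    (h : u[i]? = some Letter.R) : val (u.eraseIdx i) = val u - 1 := by
  have h1 := count_erase u i hi h Letter.R
  have h2 := count_erase u i hi h Letter.L
  simp only [if_true, reduceCtorEq, if_false] at h1 h2
  unfold val
  rw [h1, h2]
  push_cast
  ring

/-- nonempty balanced words -/
def bal (S : Finset (List Letter)) : Finset (List Letter) := S.filter (fun u => val u = 0 ∧ u ≠ [])

/-- words with one more `L` than `R` -/
def neg (S : Finset (List Letter)) : Finset (List Letter) := S.filter (fun u => val u = -1)

lemma core (S : Finset (List Letter)) (hcl : ∀ u ∈ S, ∀ i, u.eraseIdx i ∈ S) :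
    (∑ u ∈ bal S, (1 / 2 : ℝ) ^ u.length ≤ ∑ u ∈ neg S, (1 / 2 : ℝ) ^ u.length) ∧
    ((∃ u ∈ neg S, ∃ i ≤ u.length, u.insertIdx i Letter.R ∉ S) →
      ∑ u ∈ bal S, (1 / 2 : ℝ) ^ u.length < ∑ u ∈ neg S, (1 / 2 : ℝ) ^ u.length) := by
  have hB : ∑ u ∈ bal S, (1 / 2 : ℝ) ^ u.length =
      ∑ p ∈ markedPairs (bal S), (1 / 2 : ℝ) ^ p.1.length / (p.1.count Letter.R : ℝ) := by
    rw [sum_markedPairs (bal S) (fun u => (1 / 2 : ℝ) ^ u.length / (u.count Letter.R : ℝ))]
    refine Finset.sum_congr rfl fun u hu => ?_
    simp only [bal, Finset.mem_filter] at hu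
    obtain ⟨_, hv, hne⟩ := hu
    have hpos : u.count Letter.R ≠ 0 := by
      intro h0
      apply hne
      unfold val at hv
      have : u.length = 0 := by
        rw [length_eq_count]
        omega
      exact List.length_eq_zero_iff.mp this
    have hpos' : (u.count Letter.R : ℝ) ≠ 0 := by exact_mod_cast hpos
    field_simp
  have hA : ∑ u ∈ neg S, (1 / 2 : ℝ) ^ u.length =
      ∑ p ∈ gapPairs (neg S), (1 / 2 : ℝ) ^ p.1.length / ((p.1.length : ℝ) + 1) := by
    rw [sum_gapPairs (neg S) (fun u => (1 / 2 : ℝ) ^ u.length / ((u.length : ℝ) + 1))]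
    refine Finset.sum_congr rfl fun u hu => ?_
    have : (u.length : ℝ) + 1 ≠ 0 := by positivity
    field_simp
  have hinj : Set.InjOn del (markedPairs (bal S) : Set (List Letter × ℕ)) := by
    intro p hp q hq hpq
    rw [Finset.mem_coe, mem_markedPairs] at hp hq
    obtain ⟨p1, p2⟩ := p
    obtain ⟨q1, q2⟩ := q
    simp only [del, Prod.mk.injEq] at hpq hp hq ⊢
    obtain ⟨h1, h2⟩ := hpq
    subst h2
    refine ⟨?_, rfl⟩
    rw [← getElem?_insert_erase p1 p2 hp.2.1 hp.2.2, h1,
      getElem?_insert_erase q1 p2 hq.2.1 hq.2.2]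
  have hBi : ∑ p ∈ markedPairs (bal S), (1 / 2 : ℝ) ^ p.1.length / (p.1.count Letter.R : ℝ) =
      ∑ q ∈ (markedPairs (bal S)).image del,
        (1 / 2 : ℝ) ^ q.1.length / ((q.1.length : ℝ) + 1) := by
    rw [Finset.sum_image hinj]
    refine Finset.sum_congr rfl fun p hp => ?_
    rw [mem_markedPairs] at hp
    obtain ⟨h1, h2, h3⟩ := hp
    simp only [bal, Finset.mem_filter] at h1
    obtain ⟨_, hv, hne⟩ := h1
    have hlen : (p.1.eraseIdx p.2).length = p.1.length - 1 := List.length_eraseIdx_of_lt h2
    have hl2 := length_eq_count p.1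
    unfold val at hv
    have hcl : p.1.count Letter.L = p.1.count Letter.R := by omega
    have hcpos : p.1.count Letter.R ≠ 0 := by omega
    obtain ⟨c, hc⟩ : ∃ c, p.1.count Letter.R = c + 1 := ⟨p.1.count Letter.R - 1, by omega⟩
    simp only [del]
    rw [hlen, hc, hl2, hcl, hc]
    have : c + 1 + (c + 1) - 1 = 2 * c + 1 := by omega
    rw [this]
    have h' : c + 1 + (c + 1) = 2 * c + 2 := by omega
    rw [h']
    push_cast
    have hc1 : (c : ℝ) + 1 ≠ 0 := by positivity
    have hc2 : 2 * (c : ℝ) + 1 + 1 ≠ 0 := by positivity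
    field_simp
    ring
  have hsub : (markedPairs (bal S)).image del ⊆ gapPairs (neg S) := by
    intro q hq
    rw [Finset.mem_image] at hq
    obtain ⟨p, hp, rfl⟩ := hq
    rw [mem_markedPairs] at hp
    obtain ⟨h1, h2, h3⟩ := hp
    simp only [bal, Finset.mem_filter] at h1
    obtain ⟨hS, hv, hne⟩ := h1
    rw [mem_gapPairs]
    have hlen : (p.1.eraseIdx p.2).length = p.1.length - 1 := List.length_eraseIdx_of_lt h2
    refine ⟨?_, ?_⟩
    · simp only [neg, del, Finset.mem_filter]
      refine ⟨hcl _ hS _, ?_⟩
      rw [val_erase p.1 p.2 h2 h3, hv]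
      norm_num
    · simp only [del]
      omega
  rw [hB, hA, hBi]
  constructor
  · exact Finset.sum_le_sum_of_subset_of_nonneg hsub (fun q _ _ => by positivity)
  · rintro ⟨u, hu, i, hi, hnot⟩
    refine Finset.sum_lt_sum_of_subset hsub (i := (u, i)) ?_ ?_ (by positivity)
      (fun q _ _ => by positivity)
    · rw [mem_gapPairs]
      exact ⟨hu, by simpa using Nat.lt_succ_of_le hi⟩
    · intro hmem
      rw [Finset.mem_image] at hmem
      obtain ⟨p, hp, hpe⟩ := hmem
      rw [mem_markedPairs] at hp
      obtain ⟨h1, h2, h3⟩ := hp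
      obtain ⟨p1, p2⟩ := p
      simp only [del, Prod.mk.injEq] at hpe h1 h2 h3
      obtain ⟨he1, he2⟩ := hpe
      subst he2
      apply hnot
      rw [← he1, getElem?_insert_erase p1 p2 h2 h3]
      simp only [bal, Finset.mem_filter] at h1
      exact h1.1

/-- The combinatorial inequality for the tree of a word starting with `L`. -/
lemma sum_lt (v : List Letter) :
    ∑ u ∈ bal (nodes (tree (Letter.L :: v))), (1 / 2 : ℝ) ^ u.length <
      ∑ u ∈ neg (nodes (tree (Letter.L :: v))), (1 / 2 : ℝ) ^ u.length := by
  refine (core _ ?_).2 ?_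
  · intro u hu i
    rw [mem_nodes_tree] at hu ⊢
    exact (List.eraseIdx_sublist u i).trans hu
  · -- a longest word with one more `L`
    have hmemL : [Letter.L] ∈ neg (nodes (tree (Letter.L :: v))) := by
      simp only [neg, Finset.mem_filter]
      rw [mem_nodes_tree]
      refine ⟨?_, by simp [val]⟩
      rw [List.reverse_cons]
      exact List.sublist_append_right _ _
    obtain ⟨V, hV, hmax⟩ := Finset.exists_max_image (neg (nodes (tree (Letter.L :: v))))
      (fun u => u.length) ⟨_, hmemL⟩
    refine ⟨V, hV, V.length, le_rfl, ?_⟩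
    intro hin
    rw [mem_nodes_tree] at hin
    have hins : V.insertIdx V.length Letter.R = V ++ [Letter.R] := by
      simp
    rw [hins, List.reverse_cons] at hin
    have h1 : (V ++ [Letter.R]).Sublist v.reverse := by
      have h2 := List.reverse_sublist.mpr hin
      simp only [List.reverse_append, List.reverse_cons, List.reverse_nil, List.nil_append,
        List.reverse_reverse, List.cons_append] at h2
      have h3 : (Letter.R :: V.reverse).Sublist v := by
        cases h2 with
        | cons _ h => exact h
      have h4 := List.reverse_sublist.mpr h3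
      simpa using h4
    have h5 : (V ++ [Letter.R] ++ [Letter.L]).Sublist (v.reverse ++ [Letter.L]) :=
      List.Sublist.append h1 (List.Sublist.refl _)
    have h6 : V ++ [Letter.R] ++ [Letter.L] ∈ neg (nodes (tree (Letter.L :: v))) := by
      simp only [neg, Finset.mem_filter]
      rw [mem_nodes_tree, List.reverse_cons]
      refine ⟨h5, ?_⟩
      simp only [neg, Finset.mem_filter] at hV
      have hv := hV.2
      unfold val at hv ⊢
      simp [List.count_append]
      omega
    have h7 := hmax _ h6
    simp at h7

/-- `f = 1_{s ≥ 0}` -/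
noncomputable def indNonneg (s : ℤ) : ℝ := if 0 ≤ s then 1 else 0

lemma lap_indNonneg (s : ℤ) :
    lap indNonneg s = if s = -1 then 1 / 2 else if s = 0 then -1 / 2 else 0 := by
  unfold lap indNonneg
  rcases lt_trichotomy s (-1) with h | h | h
  · rw [if_neg (by omega : ¬ (0 ≤ s - 1)), if_neg (by omega : ¬ (0 ≤ s + 1)),
      if_neg (by omega : ¬ (0 ≤ s)), if_neg (by omega : ¬ (s = -1)),
      if_neg (by omega : ¬ (s = 0))]
    norm_num
  · subst h
    norm_num
  · rcases eq_or_ne s 0 with h0 | h0
    · subst h0
      norm_num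
    · rw [if_pos (by omega : (0 ≤ s - 1)), if_pos (by omega : (0 ≤ s + 1)),
        if_pos (by omega : (0 ≤ s)), if_neg (by omega : ¬ (s = -1)),
        if_neg (by omega : ¬ (s = 0))]
      norm_num

lemma gen_gt (v : List Letter) : 1 / 2 < gen indNonneg (tree (Letter.L :: v)) 0 := by
  rw [gen_eq]
  have hlt := sum_lt v
  set N := nodes (tree (Letter.L :: v)) with hN
  have hsplit : ∑ u ∈ N, (1 / 2 : ℝ) ^ u.length * lap indNonneg (0 + val u) =
      (1 / 2) * (∑ u ∈ neg N, (1 / 2 : ℝ) ^ u.length) - (1 / 2) *
        (1 + ∑ u ∈ bal N, (1 / 2 : ℝ) ^ u.length) := by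
    have h1 : ∀ u : List Letter, (1 / 2 : ℝ) ^ u.length * lap indNonneg (0 + val u) =
        (1 / 2) * (if val u = -1 then (1 / 2 : ℝ) ^ u.length else 0) - (1 / 2) *
          ((if u = [] then 1 else 0) +
            (if (val u = 0 ∧ u ≠ []) then (1 / 2 : ℝ) ^ u.length else 0)) := by
      intro u
      rw [lap_indNonneg, zero_add]
      by_cases hu : u = []
      · subst hu
        simp [val_nil]
        norm_num
      · by_cases h1 : val u = -1
        · simp [h1, hu]; ring
        · by_cases h2 : val u = 0
          · simp [h2, hu]; ring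
          · simp [h1, h2, hu]
    have hnil : ([] : List Letter) ∈ N := by
      rw [hN, mem_nodes_tree]
      exact List.nil_sublist _
    rw [Finset.sum_congr rfl (fun u _ => h1 u), Finset.sum_sub_distrib, ← Finset.mul_sum,
      ← Finset.mul_sum, Finset.sum_add_distrib, Finset.sum_ite_eq' N ([] : List Letter) (fun _ => (1 : ℝ)),
      if_pos hnil]
    unfold neg bal
    rw [Finset.sum_filter, Finset.sum_filter]
  rw [hsplit]
  have h0 : indNonneg 0 = 1 := by simp [indNonneg]
  rw [h0]
  linarith

/-! ## The law of the stopped walk -/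

lemma walk_succ (x : ℕ → ℤ) (n : ℕ) : walk x (1 + n) = x 0 + walk (fun i => x (i + 1)) n := by
  unfold walk
  rw [add_comm 1 n, Finset.sum_range_succ', add_comm]

section Prob

variable {Ω : Type*} [MeasurableSpace Ω] (P : Measure Ω) (ξ : ℕ → Ω → ℤ)

/-- The event that the walk started at `s`, using the steps `ξ k, ξ (k+1), …` and stopped at
`τ_T`, ends in the set `A`. -/
def event (A : Set ℤ) (T : BTree) (k : ℕ) (s : ℤ) : Set Ω :=
  {ω | s + walk (fun n => ξ (n + k) ω) (stopTime T (fun n => ξ (n + k) ω)) ∈ A}

lemma event_neg (A : Set ℤ) (l r : BTree) (k : ℕ) (s : ℤ) (ω : Ω) (h : ξ k ω = -1) :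
    ω ∈ event ξ A (.node l r) k s ↔ ω ∈ event ξ A l (k + 1) (s - 1) := by
  unfold event
  simp only [Set.mem_ofPred_eq, stopTime, zero_add, h, if_true]
  rw [walk_succ]
  simp only [zero_add, h]
  have : (fun i => ξ (i + 1 + k) ω) = fun i => ξ (i + (k + 1)) ω := by
    funext i
    congr 1
    ring
  rw [this]
  have h2 : ∀ a : ℤ, s + (-1 + a) = s - 1 + a := fun a => by ring
  rw [h2]

lemma event_pos (A : Set ℤ) (l r : BTree) (k : ℕ) (s : ℤ) (ω : Ω) (h : ξ k ω = 1) :
    ω ∈ event ξ A (.node l r) k s ↔ ω ∈ event ξ A r (k + 1) (s + 1) := by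
  unfold event
  have hne : ¬ ((1 : ℤ) = -1) := by norm_num
  simp only [Set.mem_ofPred_eq, stopTime, zero_add, h, if_neg hne]
  rw [walk_succ]
  simp only [zero_add, h]
  have : (fun i => ξ (i + 1 + k) ω) = fun i => ξ (i + (k + 1)) ω := by
    funext i
    congr 1
    ring
  rw [this]
  have h2 : ∀ a : ℤ, s + (1 + a) = s + 1 + a := fun a => by ring
  rw [h2]

/-- The stopped walk is a measurable function of the steps with index at least `k`. -/
lemma measurable_stopped (T : BTree) (k : ℕ) :
    Measurable[⨆ i ∈ Set.Ici k, MeasurableSpace.comap (ξ i) ⊤]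
      (fun ω => walk (fun n => ξ (n + k) ω) (stopTime T (fun n => ξ (n + k) ω))) := by
  induction T generalizing k with
  | leaf =>
    simp only [stopTime, walk, Finset.range_zero, Finset.sum_empty]
    exact measurable_const
  | node l r ihl ihr =>
    have hξk : Measurable[⨆ i ∈ Set.Ici k, MeasurableSpace.comap (ξ i) ⊤] (ξ k) := by
      have h1 : MeasurableSpace.comap (ξ k) ⊤ ≤
          ⨆ i ∈ Set.Ici k, MeasurableSpace.comap (ξ i) ⊤ :=
        le_iSup₂_of_le k (by simp) le_rfl
      exact (comap_measurable (m := ⊤) (ξ k)).mono h1 le_rfl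
    have hle : (⨆ i ∈ Set.Ici (k + 1), MeasurableSpace.comap (ξ i) ⊤) ≤
        ⨆ i ∈ Set.Ici k, MeasurableSpace.comap (ξ i) ⊤ := by
      refine iSup₂_le fun i hi => ?_
      exact le_iSup₂_of_le i (by simp only [Set.mem_Ici] at hi ⊢; omega) le_rfl
    have hl := (ihl (k + 1)).mono hle le_rfl
    have hr := (ihr (k + 1)).mono hle le_rfl
    have heq : (fun ω => walk (fun n => ξ (n + k) ω)
        (stopTime (.node l r) (fun n => ξ (n + k) ω))) =
        fun ω => if ξ k ω = -1 then
          ξ k ω + walk (fun n => ξ (n + (k + 1)) ω) (stopTime l (fun n => ξ (n + (k + 1)) ω))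
          else
          ξ k ω + walk (fun n => ξ (n + (k + 1)) ω) (stopTime r (fun n => ξ (n + (k + 1)) ω)) := by
      funext ω
      have : (fun i => ξ (i + 1 + k) ω) = fun i => ξ (i + (k + 1)) ω := by
        funext i
        congr 1
        ring
      simp only [stopTime, zero_add]
      split_ifs with h
      · rw [walk_succ]
        simp only [zero_add]
        rw [this]
      · rw [walk_succ]
        simp only [zero_add]
        rw [this]
    rw [heq]
    refine Measurable.ite ?_ ?_ ?_
    · exact hξk (measurableSet_singleton _)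
    · exact hξk.add hl
    · exact hξk.add hr

variable [IsProbabilityMeasure P]

/-- The law of the stopped walk satisfies the recursion of `gen`. -/
lemma prob_event (hm : ∀ n, Measurable (ξ n)) (hindep : iIndepFun ξ P)
    (hneg : ∀ n, P {ω | ξ n ω = -1} = 1 / 2) (hpos : ∀ n, P {ω | ξ n ω = 1} = 1 / 2)
    (A : Set ℤ) [DecidablePred (· ∈ A)] (T : BTree) (k : ℕ) (s : ℤ) :
    P.real (event ξ A T k s) = gen (fun d => if d ∈ A then 1 else 0) T s := by
  have hcomap : ∀ i, MeasurableSpace.comap (ξ i) ⊤ ≤ (inferInstance : MeasurableSpace Ω) :=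
    fun i => (hm i).comap_le
  have hsup : ∀ k : ℕ, (⨆ i ∈ Set.Ici k, MeasurableSpace.comap (ξ i) ⊤) ≤
      (inferInstance : MeasurableSpace Ω) := fun k => iSup₂_le fun i _ => hcomap i
  induction T generalizing k s with
  | leaf =>
    unfold event
    simp only [stopTime, walk, Finset.range_zero, Finset.sum_empty, add_zero, gen]
    by_cases h : s ∈ A
    · simp [h]
    · simp [h]
  | node l r ihl ihr =>
    have hmE : ∀ (T : BTree) (k : ℕ) (s : ℤ),
        MeasurableSet[⨆ i ∈ Set.Ici k, MeasurableSpace.comap (ξ i) ⊤] (event ξ A T k s) := by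
      intro T k s
      have h1 := (measurable_stopped ξ T k).const_add s
      exact h1 (MeasurableSet.of_discrete (s := A))
    have hind : Indep (⨆ i ∈ ({k} : Set ℕ), MeasurableSpace.comap (ξ i) ⊤)
        (⨆ i ∈ Set.Ici (k + 1), MeasurableSpace.comap (ξ i) ⊤) P := by
      refine indep_iSup_of_disjoint hcomap hindep ?_
      rw [Set.disjoint_singleton_left]
      simp
    have hind' : ∀ (c : ℤ) (E : Set Ω),
        MeasurableSet[⨆ i ∈ Set.Ici (k + 1), MeasurableSpace.comap (ξ i) ⊤] E →
        P ({ω | ξ k ω = c} ∩ E) = P {ω | ξ k ω = c} * P E := by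
      intro c E hE
      refine (Indep_iff _ _ P).1 hind _ _ ?_ hE
      have h1 : MeasurableSpace.comap (ξ k) ⊤ ≤
          ⨆ i ∈ ({k} : Set ℕ), MeasurableSpace.comap (ξ i) ⊤ :=
        le_iSup₂_of_le k (by simp) le_rfl
      refine h1 _ ?_
      exact ⟨{c}, trivial, rfl⟩
    have hsplit : P.real (event ξ A (.node l r) k s) =
        P.real ({ω | ξ k ω = -1} ∩ event ξ A l (k + 1) (s - 1)) +
        P.real ({ω | ξ k ω = 1} ∩ event ξ A r (k + 1) (s + 1)) := by
      have hm1 : MeasurableSet {ω | ξ k ω = -1} := hm k (measurableSet_singleton _)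
      have hm2 : MeasurableSet {ω | ξ k ω = 1} := hm k (measurableSet_singleton _)
      have hnull : P {ω | ξ k ω ≠ -1 ∧ ξ k ω ≠ 1} = 0 := by
        have hun : P ({ω | ξ k ω = -1} ∪ {ω | ξ k ω = 1}) = 1 := by
          rw [measure_union _ hm2, hneg, hpos]
          · simp only [one_div]
            exact ENNReal.inv_two_add_inv_two
          · rw [Set.disjoint_left]
            intro ω h1 h2
            simp only [Set.mem_ofPred_eq] at h1 h2
            rw [h1] at h2
            norm_num at h2
        have hcompl : {ω | ξ k ω ≠ -1 ∧ ξ k ω ≠ 1} =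
            ({ω | ξ k ω = -1} ∪ {ω | ξ k ω = 1})ᶜ := by
          ext ω
          simp
        rw [hcompl, prob_compl_eq_zero_iff (hm1.union hm2)]
        exact hun
      have hae : event ξ A (.node l r) k s =ᵐ[P]
          (({ω | ξ k ω = -1} ∩ event ξ A l (k + 1) (s - 1)) ∪
          ({ω | ξ k ω = 1} ∩ event ξ A r (k + 1) (s + 1)) : Set Ω) := by
        have hall : ∀ᵐ ω ∂P, ¬ (ξ k ω ≠ -1 ∧ ξ k ω ≠ 1) := by
          rw [ae_iff]
          simpa using hnull
        filter_upwards [hall] with ω hω
        apply propext
        change ω ∈ event ξ A (.node l r) k s ↔ ω ∈ (({ω | ξ k ω = -1} ∩ event ξ A l (k + 1) (s - 1)) ∪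
          ({ω | ξ k ω = 1} ∩ event ξ A r (k + 1) (s + 1)) : Set Ω)
        have hω' : ξ k ω = -1 ∨ ξ k ω = 1 := by
          by_contra hcon
          push Not at hcon
          exact hω hcon
        rcases hω' with h | h
        · rw [event_neg ξ A l r k s ω h]
          simp [h]
        · rw [event_pos ξ A l r k s ω h]
          simp [h]
      rw [measureReal_congr hae, measureReal_union]
      · rw [Set.disjoint_left]
        rintro ω ⟨h1, _⟩ ⟨h2, _⟩
        simp only [Set.mem_ofPred_eq] at h1 h2
        rw [h1] at h2
        norm_num at h2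
      · exact hm2.inter (hsup _ _ (hmE r (k + 1) (s + 1)))
    have hl := ihl (k + 1) (s - 1)
    have hr := ihr (k + 1) (s + 1)
    rw [hsplit, gen, ← hl, ← hr]
    simp only [Measure.real]
    rw [hind' _ _ (hmE l (k + 1) (s - 1)), hind' _ _ (hmE r (k + 1) (s + 1)), hneg, hpos,
      ENNReal.toReal_mul, ENNReal.toReal_mul]
    have hhalf : (1 / 2 : ENNReal).toReal = 1 / 2 := by simp
    rw [hhalf]
    ring

end Prob

/-! ## Exchanging the letters -/

/-- mirror image of a tree -/
def mirror : BTree → BTree
  | .leaf => .leaf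
  | .node l r => .node (mirror r) (mirror l)

/-- exchange of letters -/
def swap : Letter → Letter
  | .L => .R
  | .R => .L

lemma gen_mirror (f : ℤ → ℝ) (T : BTree) (s : ℤ) :
    gen f (mirror T) s = gen (fun d => f (-d)) T (-s) := by
  induction T generalizing s with
  | leaf => simp [gen, mirror]
  | node l r ihl ihr =>
    rw [mirror, gen, ihl, ihr, gen]
    have h1 : -(s - 1) = -s + 1 := by ring
    have h2 : -(s + 1) = -s - 1 := by ring
    rw [h1, h2]
    ring

lemma rootPair_swap (v : List Letter) :
    (rootPair (v.map swap)).1 = mirror (rootPair v).2 ∧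
    (rootPair (v.map swap)).2 = mirror (rootPair v).1 := by
  induction v using List.reverseRecOn with
  | nil => simp [rootPair, mirror]
  | append_singleton v c ih =>
    obtain ⟨ih1, ih2⟩ := ih
    rw [List.map_append, List.map_singleton, rootPair_snoc, rootPair_snoc]
    cases c with
    | L => simp [swap, mirror, ih1, ih2]
    | R => simp [swap, mirror, ih1, ih2]

lemma tree_swap (v : List Letter) : tree (v.map swap) = mirror (tree v) := by
  obtain ⟨h1, h2⟩ := rootPair_swap v
  unfold tree
  rw [h1, h2, mirror]

lemma gen_gt' (v : List Letter) :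
    1 / 2 < gen (fun d => if d ≤ 0 then (1 : ℝ) else 0) (tree (Letter.R :: v)) 0 := by
  have h := gen_gt (v.map swap)
  have h2 : (Letter.L :: v.map swap) = (Letter.R :: v).map swap := by simp [swap]
  rw [h2, tree_swap, gen_mirror] at h
  have h3 : (fun d : ℤ => indNonneg (-d)) = fun d => if d ≤ 0 then (1 : ℝ) else 0 := by
    funext d
    unfold indNonneg
    simp only [Left.nonneg_neg_iff]
  rw [h3] at h
  simpa using h

/-- Sanity check (not used below): independent signs exist, so `result` is not vacuous. -/
lemma exists_signs : ∃ (P : Measure (ℕ → ℤ)) (_ : IsProbabilityMeasure P),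
    (∀ n, Measurable (fun x : ℕ → ℤ => x n)) ∧ iIndepFun (fun n (x : ℕ → ℤ) => x n) P ∧
    (∀ n, P {x | x n = -1} = 1 / 2) ∧ (∀ n, P {x | x n = 1} = 1 / 2) := by
  let ν : Measure ℤ := (1 / 2 : ENNReal) • Measure.dirac (-1) + (1 / 2 : ENNReal) • Measure.dirac 1
  have hν : IsProbabilityMeasure ν := ⟨by
    simp only [ν, Measure.coe_add, Measure.coe_smul, Pi.add_apply, Pi.smul_apply,
      measure_univ, smul_eq_mul, mul_one, one_div]
    exact ENNReal.inv_two_add_inv_two⟩
  refine ⟨Measure.infinitePi (fun _ : ℕ => ν), inferInstance, fun n => measurable_pi_apply n,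
    ?_, fun n => ?_, fun n => ?_⟩
  · exact iIndepFun_infinitePi (P := fun _ : ℕ => ν) (X := fun _ => id) (fun _ => measurable_id)
  · have h := (measurePreserving_eval_infinitePi (fun _ : ℕ => ν) n).measure_preimage
      (MeasurableSet.nullMeasurableSet (measurableSet_singleton (-1 : ℤ)))
    have h2 : ν {(-1 : ℤ)} = 1 / 2 := by
      simp [ν]
    rw [h2] at h
    exact h
  · have h := (measurePreserving_eval_infinitePi (fun _ : ℕ => ν) n).measure_preimage
      (MeasurableSet.nullMeasurableSet (measurableSet_singleton (1 : ℤ)))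
    have h2 : ν {(1 : ℤ)} = 1 / 2 := by
      simp [ν]
    rw [h2] at h
    exact h

/-- Sanity check (not used below): the trees of the problem, `T_{vL} = [T_v, T_v⁺]` and
`T_{vR} = [T_v⁻, T_v]`. -/
lemma tree_snoc (v : List Letter) :
    tree [] = .node .leaf .leaf ∧
    tree (v ++ [Letter.L]) = .node (tree v) (rootPair v).2 ∧
    tree (v ++ [Letter.R]) = .node (rootPair v).1 (tree v) := by
  refine ⟨rfl, ?_, ?_⟩
  · unfold tree
    rw [rootPair_snoc]
  · unfold tree
    rw [rootPair_snoc]

/-- **Persistent asymmetry of stopped random walks on growing trees.** Let `ξ 0, ξ 1, …` be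
independent signs, each `±1` with probability `1/2`, on an arbitrary probability space. For every
word `v` in the letters `L, R`, the law of the walk stopped along the tree `T_{Lv}` gives the
non-negative integers mass greater than `1/2`, and the law of the walk stopped along the tree
`T_{Rv}` gives the non-positive integers mass greater than `1/2`. -/
theorem result {Ω : Type*} [MeasurableSpace Ω] (P : Measure Ω) [IsProbabilityMeasure P]
    (ξ : ℕ → Ω → ℤ) (hm : ∀ n, Measurable (ξ n)) (hindep : iIndepFun ξ P)
    (hneg : ∀ n, P {ω | ξ n ω = -1} = 1 / 2) (hpos : ∀ n, P {ω | ξ n ω = 1} = 1 / 2)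
    (v : List Letter) :
    1 / 2 < law P ξ (tree (Letter.L :: v)) {d | 0 ≤ d} ∧
    1 / 2 < law P ξ (tree (Letter.R :: v)) {d | d ≤ 0} := by
  have hmeas : ∀ T : BTree,
      Measurable (fun ω => walk (fun n => ξ n ω) (stopTime T (fun n => ξ n ω))) := by
    intro T
    have h1 := measurable_stopped ξ T 0
    have hle : (⨆ i ∈ Set.Ici 0, MeasurableSpace.comap (ξ i) ⊤) ≤
        (inferInstance : MeasurableSpace Ω) := iSup₂_le fun i _ => (hm i).comap_le
    exact h1.mono hle le_rfl
  have key : ∀ (A : Set ℤ) [DecidablePred (· ∈ A)] (T : BTree),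
      1 / 2 < gen (fun d => if d ∈ A then (1 : ℝ) else 0) T 0 → 1 / 2 < law P ξ T A := by
    intro A _ T h
    unfold law
    rw [Measure.map_apply (hmeas T) (MeasurableSet.of_discrete)]
    have h1 := prob_event P ξ hm hindep hneg hpos A T 0 0
    rw [← h1] at h
    have h2 : event ξ A T 0 0 =
        (fun ω => walk (fun n => ξ n ω) (stopTime T (fun n => ξ n ω))) ⁻¹' A := by
      unfold event
      ext ω
      simp
    rw [h2] at h
    rw [Measure.real] at h
    have h3 : (1 / 2 : ENNReal) = ENNReal.ofReal (1 / 2) := by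
      rw [ENNReal.ofReal_div_of_pos (by norm_num)]
      simp
    rw [h3]
    exact (ENNReal.ofReal_lt_iff_lt_toReal (by norm_num) (measure_ne_top _ _)).2 h
  refine ⟨key {d | 0 ≤ d} _ ?_, key {d | d ≤ 0} _ ?_⟩
  · exact gen_gt v
  · exact gen_gt' v

end Pool.Agent.Results.MP_64b22f_nt.PersistentAsymmetry
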