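import Mathlib
import Pool.Agent.Results.MP_64b22f_nt.PersistentAsymmetry

set_option autoImplicit false

open Filter Topology

namespace Pool.Agent.Results.MP_64b22f_nt.CusickConjecture

open Pool.Agent.Results.MP_64b22f_nt.PersistentAsymmetry

/-- The sum `s(n)` of the binary digits of `n`. -/
def dsum (n : ℕ) : ℕ := (Nat.digits 2 n).sum

lemma dsum_two_mul (n : ℕ) : dsum (2 * n) = dsum n := by
  unfold dsum
  rcases Nat.eq_zero_or_pos n with h | h
  · subst h; simp
  · rw [Nat.digits_def' (by norm_num) (by omega)]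
    simp

lemma dsum_two_mul_add_one (n : ℕ) : dsum (2 * n + 1) = dsum n + 1 := by
  unfold dsum
  rw [Nat.digits_def' (by norm_num) (by omega)]
  have h1 : (2 * n + 1) % 2 = 1 := by omega
  have h2 : (2 * n + 1) / 2 = n := by omega
  rw [h1, h2]
  simp [add_comm]

lemma dsum_block (M : ℕ) : ∀ (q r : ℕ), r < 2 ^ M → dsum (2 ^ M * q + r) = dsum q + dsum r := by
  induction M with
  | zero =>
    intro q r hr
    have : r = 0 := by simpa using hr
    subst this
    simp [dsum]
  | succ M ih =>
    intro q r hr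
    rcases Nat.even_or_odd' r with ⟨r', h | h⟩
    · subst h
      have h1 : 2 ^ (M + 1) * q + 2 * r' = 2 * (2 ^ M * q + r') := by ring
      rw [h1, dsum_two_mul, dsum_two_mul, ih q r' (by rw [pow_succ] at hr; omega)]
    · subst h
      have h1 : 2 ^ (M + 1) * q + (2 * r' + 1) = 2 * (2 ^ M * q + r') + 1 := by ring
      rw [h1, dsum_two_mul_add_one, dsum_two_mul_add_one,
        ih q r' (by rw [pow_succ] at hr; omega)]
      ring

lemma card_filter_double (p : ℕ → Prop) [DecidablePred p] (K : ℕ) :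
    ((Finset.range (2 * K)).filter p).card =
      ((Finset.range K).filter (fun n => p (2 * n))).card +
      ((Finset.range K).filter (fun n => p (2 * n + 1))).card := by
  induction K with
  | zero => simp
  | succ K ih =>
    have h1 : 2 * (K + 1) = 2 * K + 1 + 1 := by ring
    rw [h1, Finset.range_add_one, Finset.range_add_one, Finset.range_add_one,
      Finset.filter_insert, Finset.filter_insert, Finset.filter_insert, Finset.filter_insert]
    by_cases ha : p (2 * K) <;> by_cases hb : p (2 * K + 1) <;>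
      simp [ha, hb, ih] <;> ring

/-- number of `n < 2^M` with `n + t < 2^M` and `s(n) ≤ s(n+t) + a` -/
def cnt (M t : ℕ) (a : ℤ) : ℕ :=
  ((Finset.range (2 ^ M)).filter (fun n => n + t < 2 ^ M ∧ (dsum n : ℤ) ≤ dsum (n + t) + a)).card

lemma cnt_even (M t : ℕ) (a : ℤ) : cnt (M + 1) (2 * t) a = 2 * cnt M t a := by
  unfold cnt
  rw [pow_succ, mul_comm (2 ^ M) 2, card_filter_double, two_mul (Finset.card _)]
  congr 2
  · refine Finset.filter_congr fun n _ => ?_
    have h1 : 2 * n + 2 * t = 2 * (n + t) := by ring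
    rw [h1, dsum_two_mul, dsum_two_mul]
    constructor
    · rintro ⟨h1, h2⟩; exact ⟨by omega, h2⟩
    · rintro ⟨h1, h2⟩; exact ⟨by omega, h2⟩
  · refine Finset.filter_congr fun n _ => ?_
    have h1 : 2 * n + 1 + 2 * t = 2 * (n + t) + 1 := by ring
    rw [h1, dsum_two_mul_add_one, dsum_two_mul_add_one]
    constructor
    · rintro ⟨h1, h2⟩; refine ⟨by omega, by push_cast at h2; linarith⟩
    · rintro ⟨h1, h2⟩; refine ⟨by omega, by push_cast; linarith⟩

lemma cnt_odd (M t : ℕ) (a : ℤ) :
    cnt (M + 1) (2 * t + 1) a = cnt M (t + 1) (a - 1) + cnt M t (a + 1) := by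
  unfold cnt
  rw [pow_succ, mul_comm (2 ^ M) 2, card_filter_double, add_comm]
  congr 2
  · refine Finset.filter_congr fun n _ => ?_
    have h1 : 2 * n + 1 + (2 * t + 1) = 2 * (n + (t + 1)) := by ring
    rw [h1, dsum_two_mul, dsum_two_mul_add_one]
    constructor
    · rintro ⟨h1, h2⟩; refine ⟨by omega, by push_cast at h2; linarith⟩
    · rintro ⟨h1, h2⟩; refine ⟨by omega, by push_cast; linarith⟩
  · refine Finset.filter_congr fun n _ => ?_
    have h1 : 2 * n + (2 * t + 1) = 2 * (n + t) + 1 := by ring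
    rw [h1, dsum_two_mul_add_one, dsum_two_mul]
    constructor
    · rintro ⟨h1, h2⟩; refine ⟨by omega, by push_cast at h2; linarith⟩
    · rintro ⟨h1, h2⟩; refine ⟨by omega, by push_cast; linarith⟩

/-- proportion -/
noncomputable def D (M t : ℕ) (a : ℤ) : ℝ := (cnt M t a : ℝ) / 2 ^ M

lemma D_even (M t : ℕ) (a : ℤ) : D (M + 1) (2 * t) a = D M t a := by
  unfold D
  rw [cnt_even, pow_succ]
  push_cast
  field_simp

lemma D_odd (M t : ℕ) (a : ℤ) :
    D (M + 1) (2 * t + 1) a = (D M (t + 1) (a - 1) + D M t (a + 1)) / 2 := by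
  unfold D
  rw [cnt_odd, pow_succ]
  push_cast
  field_simp

lemma D_zero (M : ℕ) (a : ℤ) : D M 0 a = indNonneg a := by
  unfold D cnt indNonneg
  by_cases h : 0 ≤ a
  · rw [Finset.filter_true_of_mem]
    · simp [h]
    · intro n hn
      exact ⟨by simpa using hn, by simpa using h⟩
  · rw [Finset.filter_false_of_mem]
    · simp [h]
    · intro n hn hcon
      apply h
      simpa using hcon.2

lemma replicate_snoc (K : ℕ) :
    List.replicate (K + 1) Letter.L = List.replicate K Letter.L ++ [Letter.L] := by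
  rw [List.replicate_succ']

lemma rootPair_replicate (K : ℕ) (a : ℤ) :
    (a < (K : ℤ) → D K 1 a = gen indNonneg (rootPair (List.replicate K Letter.L)).1 a) ∧
    (rootPair (List.replicate K Letter.L)).2 = BTree.leaf := by
  induction K generalizing a with
  | zero =>
    refine ⟨fun ha => ?_, by simp [rootPair]⟩
    have ha' : ¬ (0 ≤ a) := by simpa using ha
    simp [rootPair, gen, D, cnt, indNonneg, ha']
  | succ K ih =>
    rw [replicate_snoc, rootPair_snoc]
    refine ⟨fun ha => ?_, (ih a).2⟩
    have h1 : D (K + 1) 1 a = (D K (0 + 1) (a - 1) + D K 0 (a + 1)) / 2 := by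
      have := D_odd K 0 a
      simpa using this
    rw [h1, D_zero]
    simp only [gen]
    rw [(ih (a - 1)).2, zero_add, (ih (a - 1)).1 (by push_cast at ha; linarith)]
    simp [gen]

lemma agree (t : ℕ) : ∃ v : List Letter, ∀ (K : ℕ) (a : ℤ), a < (K : ℤ) - v.length →
    D (K + v.length) (t + 1) a =
      gen indNonneg (rootPair (List.replicate K Letter.L ++ v)).1 a ∧
    D (K + v.length) t a =
      gen indNonneg (rootPair (List.replicate K Letter.L ++ v)).2 a := by
  induction t using Nat.strong_induction_on with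
  | _ t ih =>
    rcases Nat.eq_zero_or_pos t with h0 | hpos
    · subst h0
      refine ⟨[], fun K a ha => ?_⟩
      simp only [List.length_nil, Nat.cast_zero, sub_zero] at ha
      simp only [List.length_nil, add_zero, zero_add, List.append_nil]
      refine ⟨(rootPair_replicate K a).1 ha, ?_⟩
      rw [(rootPair_replicate K a).2, D_zero]
      simp [gen]
    · rcases Nat.even_or_odd' t with ⟨u, h | h⟩
      · obtain ⟨v, hv⟩ := ih u (by omega)
        refine ⟨v ++ [Letter.L], fun K a ha => ?_⟩
        simp only [List.length_append, List.length_singleton, Nat.cast_add, Nat.cast_one] at ha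
        rw [List.length_append, List.length_singleton, ← add_assoc, ← List.append_assoc,
          rootPair_snoc]
        simp only [gen]
        subst h
        rw [D_odd, D_even, (hv K (a - 1) (by linarith)).1, (hv K (a + 1) (by linarith)).2,
          (hv K a (by linarith)).2]
        exact ⟨rfl, rfl⟩
      · obtain ⟨v, hv⟩ := ih u (by omega)
        refine ⟨v ++ [Letter.R], fun K a ha => ?_⟩
        simp only [List.length_append, List.length_singleton, Nat.cast_add, Nat.cast_one] at ha
        rw [List.length_append, List.length_singleton, ← add_assoc, ← List.append_assoc,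
          rootPair_snoc]
        simp only [gen]
        subst h
        have h2 : 2 * u + 1 + 1 = 2 * (u + 1) := by ring
        rw [h2, D_odd, D_even, (hv K (a - 1) (by linarith)).1, (hv K (a + 1) (by linarith)).2,
          (hv K a (by linarith)).1]
        exact ⟨rfl, rfl⟩

lemma exists_large (t : ℕ) : ∃ M : ℕ, 1 / 2 < D M t 0 := by
  induction t using Nat.strong_induction_on with
  | _ t ih =>
    rcases Nat.eq_zero_or_pos t with h0 | hpos
    · subst h0
      refine ⟨0, ?_⟩
      rw [D_zero]
      norm_num [indNonneg]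
    · rcases Nat.even_or_odd' t with ⟨u, h | h⟩
      · obtain ⟨M, hM⟩ := ih u (by omega)
        refine ⟨M + 1, ?_⟩
        rw [h, D_even]
        exact hM
      · obtain ⟨v, hv⟩ := agree u
        refine ⟨(v.length + 2) + v.length + 1, ?_⟩
        rw [h, D_odd, (hv (v.length + 2) (0 - 1) (by push_cast; linarith)).1,
          (hv (v.length + 2) (0 + 1) (by push_cast; linarith)).2]
        have h3 := gen_gt (List.replicate (v.length + 1) Letter.L ++ v)
        have h4 : (Letter.L :: (List.replicate (v.length + 1) Letter.L ++ v)) =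
            List.replicate (v.length + 2) Letter.L ++ v := by
          rw [List.replicate_succ (n := v.length + 1), List.cons_append]
        rw [h4] at h3
        unfold tree at h3
        rw [gen] at h3
        exact h3

/-- the counting function of `{n : s(n) ≤ s(n+t)}` -/
def acc (t N : ℕ) : ℕ := ((Finset.range N).filter (fun n => dsum n ≤ dsum (n + t))).card

lemma acc_block (M t q : ℕ) :
    acc t (2 ^ M * q) + cnt M t 0 ≤ acc t (2 ^ M * (q + 1)) ∧
    acc t (2 ^ M * (q + 1)) ≤ acc t (2 ^ M * q) + (cnt M t 0 + t) := by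
  have hsplit : acc t (2 ^ M * (q + 1)) = acc t (2 ^ M * q) +
      ((Finset.range (2 ^ M)).filter
        (fun r => dsum (2 ^ M * q + r) ≤ dsum (2 ^ M * q + r + t))).card := by
    unfold acc
    have h1 : 2 ^ M * (q + 1) = 2 ^ M * q + 2 ^ M := by ring
    rw [h1, Finset.range_eq_Ico, Finset.range_eq_Ico, Finset.range_eq_Ico,
      ← Finset.Ico_union_Ico_eq_Ico (Nat.zero_le (2 ^ M * q)) (Nat.le_add_right _ (2 ^ M)),
      Finset.filter_union, Finset.card_union_of_disjoint]
    · congr 1
      have himg := Finset.card_image_of_injective ((Finset.Ico 0 (2 ^ M)).filter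
        (fun r => dsum (2 ^ M * q + r) ≤ dsum (2 ^ M * q + r + t)))
        (add_right_injective (2 ^ M * q))
      rw [← himg]
      congr 1
      ext n
      simp only [Finset.mem_filter, Finset.mem_Ico, Finset.mem_image]
      constructor
      · rintro ⟨⟨h2, h3⟩, h4⟩
        refine ⟨n - 2 ^ M * q, ⟨by omega, ?_⟩, by omega⟩
        have h5 : 2 ^ M * q + (n - 2 ^ M * q) = n := by omega
        rw [h5]
        exact h4
      · rintro ⟨r, ⟨h2, h3⟩, rfl⟩
        exact ⟨⟨by omega, by omega⟩, h3⟩
    · rw [Finset.disjoint_left]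
      intro n hn hn'
      simp only [Finset.mem_filter, Finset.mem_Ico] at hn hn'
      omega
  have hlow : cnt M t 0 ≤ ((Finset.range (2 ^ M)).filter
      (fun r => dsum (2 ^ M * q + r) ≤ dsum (2 ^ M * q + r + t))).card := by
    unfold cnt
    refine Finset.card_le_card fun r hr => ?_
    simp only [Finset.mem_filter, Finset.mem_range, add_zero, Nat.cast_le] at hr ⊢
    obtain ⟨h1, h2, h3⟩ := hr
    refine ⟨h1, ?_⟩
    rw [add_assoc, dsum_block M q r h1, dsum_block M q (r + t) h2]
    omega
  have hup : ((Finset.range (2 ^ M)).filter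
      (fun r => dsum (2 ^ M * q + r) ≤ dsum (2 ^ M * q + r + t))).card ≤ cnt M t 0 + t := by
    unfold cnt
    have hsub : ((Finset.range (2 ^ M)).filter
        (fun r => dsum (2 ^ M * q + r) ≤ dsum (2 ^ M * q + r + t))) ⊆
        ((Finset.range (2 ^ M)).filter
          (fun n => n + t < 2 ^ M ∧ (dsum n : ℤ) ≤ dsum (n + t) + 0)) ∪
        (Finset.Ico (2 ^ M - t) (2 ^ M)) := by
      intro r hr
      simp only [Finset.mem_filter, Finset.mem_range, Finset.mem_union, Finset.mem_Ico,
        add_zero, Nat.cast_le] at hr ⊢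
      obtain ⟨h1, h2⟩ := hr
      by_cases h3 : r + t < 2 ^ M
      · left
        rw [add_assoc, dsum_block M q r h1, dsum_block M q (r + t) h3] at h2
        exact ⟨h1, h3, by omega⟩
      · right
        omega
    refine (Finset.card_le_card hsub).trans ((Finset.card_union_le _ _).trans ?_)
    rw [Nat.card_Ico]
    omega
  rw [hsplit]
  omega

lemma acc_mul (M t Q : ℕ) :
    Q * cnt M t 0 ≤ acc t (2 ^ M * Q) ∧ acc t (2 ^ M * Q) ≤ Q * (cnt M t 0 + t) := by
  induction Q with
  | zero => simp [acc]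
  | succ Q ih =>
    obtain ⟨h1, h2⟩ := acc_block M t Q
    obtain ⟨h3, h4⟩ := ih
    rw [add_mul, add_mul, one_mul, one_mul]
    omega

lemma acc_mono (t : ℕ) {N N' : ℕ} (h : N ≤ N') : acc t N ≤ acc t N' := by
  unfold acc
  refine Finset.card_le_card (Finset.filter_subset_filter _ ?_)
  exact Finset.range_subset_range.2 h

lemma acc_bounds (M t N : ℕ) (hN : 0 < N) :
    D M t 0 - (cnt M t 0 : ℝ) / N ≤ (acc t N : ℝ) / N ∧
    (acc t N : ℝ) / N ≤ D M t 0 + (t : ℝ) / 2 ^ M + ((cnt M t 0 : ℝ) + t) / N := by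
  set Q := N / 2 ^ M with hQ
  have hpow : 0 < 2 ^ M := by positivity
  have h1 : 2 ^ M * Q ≤ N := Nat.mul_div_le N (2 ^ M)
  have h2 : N < 2 ^ M * (Q + 1) := by
    have := Nat.lt_mul_div_succ N hpow
    simpa using this
  have h3 := (acc_mul M t Q).1.trans (acc_mono t h1)
  have h4 := (acc_mono t h2.le).trans (acc_mul M t (Q + 1)).2
  have hNr : (0 : ℝ) < N := by exact_mod_cast hN
  have hpr : (0 : ℝ) < 2 ^ M := by positivity
  have h1r : (2 : ℝ) ^ M * Q ≤ N := by exact_mod_cast h1
  have h2r : (N : ℝ) < 2 ^ M * (Q + 1) := by exact_mod_cast h2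
  have h3r : (Q : ℝ) * cnt M t 0 ≤ acc t N := by exact_mod_cast h3
  have h4r : (acc t N : ℝ) ≤ (Q + 1) * ((cnt M t 0 : ℝ) + t) := by exact_mod_cast h4
  have hc : (0 : ℝ) ≤ cnt M t 0 := by positivity
  have ht : (0 : ℝ) ≤ t := by positivity
  have hQ1 : (N : ℝ) / 2 ^ M - 1 ≤ Q := by
    rw [sub_le_iff_le_add, div_le_iff₀ hpr]
    linarith
  have hQ2 : (Q : ℝ) ≤ N / 2 ^ M := by
    rw [le_div_iff₀ hpr]
    linarith
  constructor
  · rw [D, le_div_iff₀ hNr, sub_mul, div_mul_cancel₀ _ hNr.ne']
    have : (cnt M t 0 : ℝ) / 2 ^ M * N - cnt M t 0 = (N / 2 ^ M - 1) * cnt M t 0 := by ring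
    rw [this]
    exact (mul_le_mul_of_nonneg_right hQ1 hc).trans h3r
  · rw [D, div_le_iff₀ hNr, add_mul, add_mul, div_mul_cancel₀ _ hNr.ne']
    have : (cnt M t 0 : ℝ) / 2 ^ M * N + (t : ℝ) / 2 ^ M * N + ((cnt M t 0 : ℝ) + t) =
        (N / 2 ^ M + 1) * ((cnt M t 0 : ℝ) + t) := by ring
    rw [this]
    refine h4r.trans (mul_le_mul_of_nonneg_right (by linarith) (by positivity))

/-- **Cusick's conjecture.** For every natural number `t`, the natural density of the set of all
`n` with `s(n + t) ≥ s(n)`, where `s` is the binary sum of digits, exists and exceeds `1/2`. -/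
theorem result (t : ℕ) : ∃ c : ℝ, 1 / 2 < c ∧
    Tendsto (fun N : ℕ => (((Finset.range N).filter
      (fun n => (Nat.digits 2 n).sum ≤ (Nat.digits 2 (n + t)).sum)).card : ℝ) / N)
      atTop (𝓝 c) := by
  have hcau : CauchySeq (fun N : ℕ => (acc t N : ℝ) / N) := by
    rw [Metric.cauchySeq_iff]
    intro ε hε
    obtain ⟨M, hM⟩ : ∃ M : ℕ, (t : ℝ) / 2 ^ M < ε / 4 := by
      have h1 : Tendsto (fun M : ℕ => (t : ℝ) / 2 ^ M) atTop (𝓝 0) :=
        tendsto_const_nhds.div_atTop (tendsto_pow_atTop_atTop_of_one_lt (by norm_num))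
      exact ((h1.eventually (gt_mem_nhds (by positivity : (0 : ℝ) < ε / 4))).exists)
    obtain ⟨N0, hN0⟩ : ∃ N0 : ℕ, ∀ N ≥ N0, ((cnt M t 0 : ℝ) + t) / N < ε / 4 := by
      have h1 : Tendsto (fun N : ℕ => ((cnt M t 0 : ℝ) + t) / N) atTop (𝓝 0) :=
        tendsto_const_nhds.div_atTop tendsto_natCast_atTop_atTop
      exact (eventually_atTop.1 (h1.eventually (gt_mem_nhds (by positivity : (0 : ℝ) < ε / 4))))
    refine ⟨max N0 1, fun m hm n hn => ?_⟩
    have hb : ∀ N ≥ max N0 1, D M t 0 - ε / 4 ≤ (acc t N : ℝ) / N ∧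
        (acc t N : ℝ) / N ≤ D M t 0 + ε / 4 + ε / 4 := by
      intro N hN
      have hNpos : 0 < N := lt_of_lt_of_le (by simp) hN
      have h1 := acc_bounds M t N hNpos
      have h2 := hN0 N ((le_max_left _ _).trans hN)
      have h3 : (cnt M t 0 : ℝ) / N ≤ ((cnt M t 0 : ℝ) + t) / N := by
        have : (0 : ℝ) < N := by exact_mod_cast hNpos
        gcongr
        have : (0 : ℝ) ≤ t := by positivity
        linarith
      constructor
      · linarith [h1.1]
      · linarith [h1.2]
    have h1 := hb m hm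
    have h2 := hb n hn
    rw [Real.dist_eq, abs_lt]
    constructor <;> linarith [h1.1, h1.2, h2.1, h2.2]
  obtain ⟨c, hc⟩ := cauchySeq_tendsto_of_complete hcau
  refine ⟨c, ?_, hc⟩
  obtain ⟨M, hM⟩ := exists_large t
  refine lt_of_lt_of_le hM ?_
  have h1 : Tendsto (fun N : ℕ => D M t 0 - (cnt M t 0 : ℝ) / N) atTop (𝓝 (D M t 0 - 0)) :=
    tendsto_const_nhds.sub (tendsto_const_nhds.div_atTop tendsto_natCast_atTop_atTop)
  rw [sub_zero] at h1
  refine le_of_tendsto_of_tendsto h1 hc ?_
  filter_upwards [eventually_gt_atTop 0] with N hN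
  exact (acc_bounds M t N hN).1

end Pool.Agent.Results.MP_64b22f_nt.CusickConjecture
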